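import Pool.Agent.Helper27.FK.Two

/-!
# Theorem F (repeated rates), piece P3K: the density lemma
-/

open Finset Filter Topology

namespace Pool.Agent.Helper90.FKF

/-- `e(t) = exp(2πit)` -/
noncomputable def ee (t : ℝ) : ℂ := Complex.exp ((t : ℂ) * (2 * Real.pi * Complex.I))

theorem ee_zero : ee 0 = 1 := by simp [ee]

theorem ee_add (s t : ℝ) : ee (s + t) = ee s * ee t := by
  unfold ee
  rw [← Complex.exp_add]
  congr 1
  push_cast
  ring

theorem ee_int (z : ℤ) : ee z = 1 := by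
  unfold ee
  rw [Complex.ofReal_intCast, Complex.exp_int_mul_two_pi_mul_I]

theorem ee_eq_one_iff (t : ℝ) : ee t = 1 ↔ ∃ z : ℤ, t = z := by
  constructor
  · intro h
    unfold ee at h
    rw [Complex.exp_eq_one_iff] at h
    obtain ⟨z, hz⟩ := h
    refine ⟨z, ?_⟩
    have h0 : (2 * Real.pi * Complex.I : ℂ) ≠ 0 := Complex.two_pi_I_ne_zero
    have := mul_right_cancel₀ h0 hz
    exact_mod_cast this
  · rintro ⟨z, rfl⟩
    exact ee_int z

theorem norm_ee (t : ℝ) : ‖ee t‖ = 1 := by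
  unfold ee
  have : (t : ℂ) * (2 * Real.pi * Complex.I) = ((t * (2 * Real.pi) : ℝ) : ℂ) * Complex.I := by
    push_cast
    ring
  rw [this, Complex.norm_exp_ofReal_mul_I]

theorem conj_ee (t : ℝ) : (starRingEnd ℂ) (ee t) = ee (-t) := by
  unfold ee
  rw [← Complex.exp_conj]
  congr 1
  rw [map_mul, map_mul, map_mul, Complex.conj_I, Complex.conj_ofReal, Complex.conj_ofReal]
  have h2 : (starRingEnd ℂ) (2 : ℂ) = 2 := Complex.conj_ofNat 2
  rw [h2]
  push_cast
  ring

theorem ee_pow (t : ℝ) (j : ℕ) : ee t ^ j = ee (j * t) := by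
  induction j with
  | zero => simp [ee_zero]
  | succ j ih =>
    rw [pow_succ, ih, ← ee_add]
    congr 1
    push_cast
    ring

theorem ee_sum {α : Type*} (s : Finset α) (f : α → ℝ) : ee (∑ i ∈ s, f i) = ∏ i ∈ s, ee (f i) := by
  classical
  induction s using Finset.induction_on with
  | empty => simp [ee_zero]
  | insert a s ha ih => rw [Finset.sum_insert ha, Finset.prod_insert ha, ee_add, ih]

open Classical in
theorem cesaro (a b : ℝ) :
    Tendsto (fun J : ℕ => (J : ℂ)⁻¹ * ∑ j ∈ range J, ee (a - j * b)) atTop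
      (𝓝 (if ∃ z : ℤ, b = z then ee a else 0)) := by
  split_ifs with h
  · obtain ⟨z, rfl⟩ := h
    have h1 : ∀ J : ℕ, 0 < J →
        (J : ℂ)⁻¹ * ∑ j ∈ range J, ee (a - j * (z : ℝ)) = ee a := by
      intro J hJ
      have h2 : ∀ j ∈ range J, ee (a - j * (z : ℝ)) = ee a := by
        intro j _
        have : a - j * (z : ℝ) = a + ((-(j * z) : ℤ) : ℝ) := by
          push_cast
          ring
        rw [this, ee_add, ee_int, mul_one]
      rw [Finset.sum_congr rfl h2, Finset.sum_const, Finset.card_range, nsmul_eq_mul, ← mul_assoc,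
        inv_mul_cancel₀ (by exact_mod_cast hJ.ne'), one_mul]
    refine tendsto_const_nhds.congr' ?_
    filter_upwards [eventually_gt_atTop 0] with J hJ
    exact (h1 J hJ).symm
  · set q : ℂ := ee (-b) with hq
    have hq1 : q ≠ 1 := by
      intro h1
      rw [hq, ee_eq_one_iff] at h1
      obtain ⟨z, hz⟩ := h1
      exact h ⟨-z, by push_cast; linarith⟩
    have h1 : ∀ J : ℕ, ∑ j ∈ range J, ee (a - j * b) = ee a * ((q ^ J - 1) / (q - 1)) := by
      intro J
      rw [← geom_sum_eq hq1, Finset.mul_sum]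
      refine Finset.sum_congr rfl fun j _ => ?_
      rw [hq, ee_pow, ← ee_add]
      congr 1
      ring
    have hb : ∀ J : ℕ, ‖∑ j ∈ range J, ee (a - j * b)‖ ≤ 2 / ‖q - 1‖ := by
      intro J
      rw [h1, norm_mul, norm_ee, one_mul, norm_div]
      gcongr
      calc ‖q ^ J - 1‖ ≤ ‖q ^ J‖ + ‖(1 : ℂ)‖ := norm_sub_le _ _
        _ = 2 := by
          rw [norm_pow, hq, norm_ee, one_pow, norm_one]
          norm_num
    have h2 : Tendsto (fun J : ℕ => (2 / ‖q - 1‖) * ((J : ℝ)⁻¹)) atTop (𝓝 0) := by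
      have := (tendsto_inv_atTop_nhds_zero_nat (𝕜 := ℝ)).const_mul (2 / ‖q - 1‖)
      simpa using this
    refine squeeze_zero_norm ?_ h2
    intro J
    rw [norm_mul, norm_inv, Complex.norm_natCast, mul_comm]
    exact mul_le_mul_of_nonneg_right (hb J) (by positivity)

theorem norm_one_add_ee {t δ : ℝ} (hδ : 0 < δ) (h : ∀ z : ℤ, δ ≤ |t - z|) :
    ‖1 + ee t‖ ≤ Real.sqrt (2 + 2 * Real.cos (2 * Real.pi * δ)) := by
  have hr : |t - round t| ≤ 1 / 2 := abs_sub_round t
  have hδr := h (round t)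
  have hcos : Real.cos (2 * Real.pi * t) ≤ Real.cos (2 * Real.pi * δ) := by
    have e1 : Real.cos (2 * Real.pi * t) = Real.cos (2 * Real.pi * |t - round t|) := by
      rcases abs_cases (t - round t) with ⟨h1, _⟩ | ⟨h1, _⟩
      · rw [h1]
        have : 2 * Real.pi * t = 2 * Real.pi * (t - round t) + (round t) * (2 * Real.pi) := by ring
        rw [this, Real.cos_add_int_mul_two_pi]
      · rw [h1]
        have : 2 * Real.pi * t = -(2 * Real.pi * (-(t - round t))) + (round t) * (2 * Real.pi) := by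
          ring
        rw [this, Real.cos_add_int_mul_two_pi, Real.cos_neg]
    rw [e1]
    have hpi := Real.pi_pos
    refine Real.cos_le_cos_of_nonneg_of_le_pi (by positivity) (by nlinarith) ?_
    exact mul_le_mul_of_nonneg_left hδr (by positivity)
  have h2 : ‖1 + ee t‖ ^ 2 = 2 + 2 * Real.cos (2 * Real.pi * t) := by
    have e2 : ee t = ((Real.cos (2 * Real.pi * t) : ℝ) : ℂ) +
        ((Real.sin (2 * Real.pi * t) : ℝ) : ℂ) * Complex.I := by
      unfold ee
      have : (t : ℂ) * (2 * Real.pi * Complex.I) = ((2 * Real.pi * t : ℝ) : ℂ) * Complex.I := by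
        push_cast
        ring
      rw [this, Complex.exp_mul_I, Complex.ofReal_cos, Complex.ofReal_sin]
    rw [← Complex.normSq_eq_norm_sq, e2, Complex.normSq_apply]
    have h3 := Real.sin_sq_add_cos_sq (2 * Real.pi * t)
    simp only [Complex.add_re, Complex.add_im, Complex.one_re, Complex.one_im, Complex.mul_re,
      Complex.mul_im, Complex.ofReal_re, Complex.ofReal_im, Complex.I_re, Complex.I_im]
    ring_nf
    ring_nf at h3
    linarith
  apply Real.le_sqrt_of_sq_le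
  rw [h2]
  linarith

section main

variable {n : ℕ}

/-- the value of a letter -/
def gg (y : Fin n → ℝ) : Option (Fin n) → ℝ
  | none => 0
  | some i => y i

/-- sum of the values of a word -/
def SS {L : ℕ} (y : Fin n → ℝ) (w : Fin L → Option (Fin n)) : ℝ := ∑ l, gg y (w l)

/-- number of occurrences of the letters in a word -/
def KK {L : ℕ} (w : Fin L → Option (Fin n)) : Fin n → ℤ := fun i =>
  ((univ.filter fun l => w l = some i).card : ℤ)

theorem SS_eq {L : ℕ} (y : Fin n → ℝ) (w : Fin L → Option (Fin n)) :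
    SS y w = ∑ i, (KK w i : ℝ) * y i := by
  have h1 : ∀ l, gg y (w l) = ∑ i, if w l = some i then y i else 0 := by
    intro l
    cases hl : w l with
    | none => simp [gg]
    | some i => simp [gg]
  unfold SS
  simp_rw [h1]
  rw [Finset.sum_comm]
  refine Finset.sum_congr rfl fun i _ => ?_
  rw [← Finset.sum_filter, Finset.sum_const, nsmul_eq_mul]
  simp [KK]

theorem SS_lin {L : ℕ} (x r : Fin n → ℝ) (j : ℝ) (w : Fin L → Option (Fin n)) :
    SS (fun i => x i - j * r i) w = SS x w - j * SS r w := by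
  rw [SS_eq, SS_eq, SS_eq, Finset.mul_sum, ← Finset.sum_sub_distrib]
  refine Finset.sum_congr rfl fun i _ => ?_
  ring

/-- the trigonometric polynomial -/
noncomputable def GG (y : Fin n → ℝ) : ℂ := ∑ a : Option (Fin n), ee (gg y a)

theorem GG_pow (y : Fin n → ℝ) (L : ℕ) :
    GG y ^ L = ∑ w : Fin L → Option (Fin n), ee (SS y w) := by
  unfold GG
  rw [Fintype.sum_pow]
  refine Finset.sum_congr rfl fun w _ => ?_
  rw [SS, ee_sum]

theorem GG_norm_sq (y : Fin n → ℝ) (L : ℕ) :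
    (((‖GG y‖ ^ L) ^ 2 : ℝ) : ℂ) =
      ∑ w : Fin L → Option (Fin n), ∑ w' : Fin L → Option (Fin n), ee (SS y w - SS y w') := by
  have h1 : (((‖GG y‖ ^ L) ^ 2 : ℝ) : ℂ) = GG y ^ L * (starRingEnd ℂ) (GG y ^ L) := by
    rw [Complex.mul_conj, Complex.normSq_eq_norm_sq, norm_pow]
  rw [h1, GG_pow, map_sum, Finset.sum_mul_sum]
  refine Finset.sum_congr rfl fun w _ => Finset.sum_congr rfl fun w' _ => ?_
  rw [conj_ee, ← ee_add, sub_eq_add_neg]

theorem GG_norm_le {y : Fin n → ℝ} {δ : ℝ} (hδ : 0 < δ) (i : Fin n)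
    (h : ∀ z : ℤ, δ ≤ |y i - z|) :
    ‖GG y‖ ≤ Real.sqrt (2 + 2 * Real.cos (2 * Real.pi * δ)) + (n - 1) := by
  have h1 : GG y = (1 + ee (y i)) + ∑ j ∈ univ.erase i, ee (y j) := by
    unfold GG
    rw [Fintype.sum_option]
    have : gg y none = 0 := rfl
    rw [this, ee_zero, ← Finset.add_sum_erase univ (fun j => ee (gg y (some j))) (mem_univ i)]
    simp only [gg]
    ring
  rw [h1]
  refine (norm_add_le _ _).trans (add_le_add (norm_one_add_ee hδ h) ?_)
  refine (norm_sum_le _ _).trans ?_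
  simp only [norm_ee, Finset.sum_const, Finset.card_erase_of_mem (mem_univ i), Finset.card_univ,
    Fintype.card_fin, nsmul_eq_mul, mul_one]
  have : 1 ≤ n := by
    have := i.isLt
    omega
  rw [Nat.cast_sub this]
  simp

open Classical in
theorem KK_pairs (L : ℕ) :
    (((n : ℝ) + 1) ^ L) ^ 2 ≤ ((L : ℝ) + 1) ^ n *
      ∑ w : Fin L → Option (Fin n), ∑ w' : Fin L → Option (Fin n),
        (if KK w = KK w' then (1 : ℝ) else 0) := by
  -- the box
  set B : Finset (Fin n → ℤ) := Fintype.piFinset fun _ => Finset.Icc (0 : ℤ) L with hB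
  have hBc : (B.card : ℝ) = ((L : ℝ) + 1) ^ n := by
    rw [hB, Fintype.card_piFinset]
    simp
  have hK : ∀ w : Fin L → Option (Fin n), KK w ∈ B := by
    intro w
    rw [hB, Fintype.mem_piFinset]
    intro i
    rw [Finset.mem_Icc]
    refine ⟨by simp [KK], ?_⟩
    have : (univ.filter fun l => w l = some i).card ≤ L := by
      refine (Finset.card_le_univ _).trans ?_
      simp
    simp only [KK]
    exact_mod_cast this
  set N : (Fin n → ℤ) → ℝ := fun k => ∑ w : Fin L → Option (Fin n), if KK w = k then 1 else 0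
    with hN
  have h1 : ∑ k ∈ B, N k = ((n : ℝ) + 1) ^ L := by
    rw [hN, Finset.sum_comm]
    have : ∀ w : Fin L → Option (Fin n), ∑ k ∈ B, (if KK w = k then (1 : ℝ) else 0) = 1 := by
      intro w
      rw [Finset.sum_ite_eq, if_pos (hK w)]
    rw [Finset.sum_congr rfl fun w _ => this w]
    simp
  have h2 : ∑ k ∈ B, N k ^ 2 = ∑ w : Fin L → Option (Fin n), ∑ w' : Fin L → Option (Fin n),
        (if KK w = KK w' then (1 : ℝ) else 0) := by
    have : ∀ k, N k ^ 2 = ∑ w : Fin L → Option (Fin n), ∑ w' : Fin L → Option (Fin n),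
        (if KK w = k then (1 : ℝ) else 0) * (if KK w' = k then (1 : ℝ) else 0) := by
      intro k
      rw [hN, sq, Finset.sum_mul_sum]
    rw [Finset.sum_congr rfl fun k _ => this k, Finset.sum_comm]
    refine Finset.sum_congr rfl fun w _ => ?_
    rw [Finset.sum_comm]
    refine Finset.sum_congr rfl fun w' _ => ?_
    rw [Finset.sum_eq_single (KK w)]
    · simp [eq_comm]
    · intro k _ hk
      simp [hk.symm]
    · intro h
      exact absurd (hK w) h
  have h3 := sq_sum_le_card_mul_sum_sq (s := B) (f := N)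
  rw [h1, h2, hBc] at h3
  exact h3

open Classical in
/-- the inequality for a single point -/
theorem single {r x : Fin n → ℝ} {δ : ℝ} (hδ : 0 < δ) (L : ℕ)
    (hr : ∀ w w' : Fin L → Option (Fin n), (∃ z : ℤ, SS r w - SS r w' = z) →
      ∃ z : ℤ, SS x w - SS x w' = z)
    (hbad : ∀ j : ℤ, ∃ i, ∀ z : ℤ, δ ≤ |x i - j * r i - z|) :
    (((n : ℝ) + 1) ^ L) ^ 2 ≤ ((L : ℝ) + 1) ^ n *
      ((Real.sqrt (2 + 2 * Real.cos (2 * Real.pi * δ)) + (n - 1)) ^ L) ^ 2 := by
  set p : ℝ := Real.sqrt (2 + 2 * Real.cos (2 * Real.pi * δ)) + (n - 1) with hp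
  have hle : ∀ j : ℕ, (‖GG (fun i => x i - (j : ℝ) * r i)‖ ^ L) ^ 2 ≤ (p ^ L) ^ 2 := by
    intro j
    obtain ⟨i, hi⟩ := hbad j
    have := GG_norm_le (y := fun i => x i - (j : ℝ) * r i) hδ i (by exact_mod_cast hi)
    gcongr
  have hlim : Tendsto (fun J : ℕ => (J : ℂ)⁻¹ * ∑ j ∈ range J,
      (((‖GG (fun i => x i - (j : ℝ) * r i)‖ ^ L) ^ 2 : ℝ) : ℂ)) atTop
      (𝓝 (∑ w : Fin L → Option (Fin n), ∑ w' : Fin L → Option (Fin n),
        (if ∃ z : ℤ, SS r w - SS r w' = z then ee (SS x w - SS x w') else 0))) := by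
    have h1 : (fun J : ℕ => (J : ℂ)⁻¹ * ∑ j ∈ range J,
      (((‖GG (fun i => x i - (j : ℝ) * r i)‖ ^ L) ^ 2 : ℝ) : ℂ)) =
      fun J : ℕ => ∑ w : Fin L → Option (Fin n), ∑ w' : Fin L → Option (Fin n),
        ((J : ℂ)⁻¹ * ∑ j ∈ range J, ee ((SS x w - SS x w') - j * (SS r w - SS r w'))) := by
      funext J
      have h2 : ∀ j ∈ range J, (((‖GG (fun i => x i - (j : ℝ) * r i)‖ ^ L) ^ 2 : ℝ) : ℂ) =
          ∑ w : Fin L → Option (Fin n), ∑ w' : Fin L → Option (Fin n),
            ee ((SS x w - SS x w') - j * (SS r w - SS r w')) := by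
        intro j _
        rw [GG_norm_sq]
        refine Finset.sum_congr rfl fun w _ => Finset.sum_congr rfl fun w' _ => ?_
        rw [SS_lin, SS_lin]
        congr 1
        ring
      rw [Finset.sum_congr rfl h2, Finset.sum_comm, Finset.mul_sum]
      refine Finset.sum_congr rfl fun w _ => ?_
      rw [Finset.sum_comm, Finset.mul_sum]
    rw [h1]
    exact tendsto_finsetSum _ fun w _ => tendsto_finsetSum _ fun w' _ => cesaro _ _
  have hval : (∑ w : Fin L → Option (Fin n), ∑ w' : Fin L → Option (Fin n),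
        (if ∃ z : ℤ, SS r w - SS r w' = z then ee (SS x w - SS x w') else 0)) =
      ((∑ w : Fin L → Option (Fin n), ∑ w' : Fin L → Option (Fin n),
        (if ∃ z : ℤ, SS r w - SS r w' = z then (1 : ℝ) else 0) : ℝ) : ℂ) := by
    push_cast
    refine Finset.sum_congr rfl fun w _ => Finset.sum_congr rfl fun w' _ => ?_
    split_ifs with h
    · rw [(ee_eq_one_iff _).2 (hr w w' h)]
      simp
    · simp
  rw [hval] at hlim
  have hre := (Complex.continuous_re.tendsto _).comp hlim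
  rw [Complex.ofReal_re] at hre
  have hup : (∑ w : Fin L → Option (Fin n), ∑ w' : Fin L → Option (Fin n),
        (if ∃ z : ℤ, SS r w - SS r w' = z then (1 : ℝ) else 0)) ≤ (p ^ L) ^ 2 := by
    refine le_of_tendsto hre ?_
    filter_upwards [eventually_gt_atTop 0] with J hJ
    show ((J : ℂ)⁻¹ * ∑ j ∈ range J,
      (((‖GG (fun i => x i - (j : ℝ) * r i)‖ ^ L) ^ 2 : ℝ) : ℂ)).re ≤ (p ^ L) ^ 2
    have e1 : ((J : ℂ)⁻¹ * ∑ j ∈ range J,
      (((‖GG (fun i => x i - (j : ℝ) * r i)‖ ^ L) ^ 2 : ℝ) : ℂ)) =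
      (((J : ℝ)⁻¹ * ∑ j ∈ range J, (‖GG (fun i => x i - (j : ℝ) * r i)‖ ^ L) ^ 2 : ℝ) : ℂ) := by
      push_cast
      rfl
    rw [e1, Complex.ofReal_re]
    have hJ' : (0 : ℝ) < J := by exact_mod_cast hJ
    rw [inv_mul_le_iff₀ hJ']
    calc ∑ j ∈ range J, (‖GG (fun i => x i - (j : ℝ) * r i)‖ ^ L) ^ 2
        ≤ ∑ j ∈ range J, (p ^ L) ^ 2 := Finset.sum_le_sum fun j _ => hle j
      _ = J * (p ^ L) ^ 2 := by simp
  refine (KK_pairs (n := n) L).trans ?_
  refine mul_le_mul_of_nonneg_left (le_trans ?_ hup) (by positivity)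
  refine Finset.sum_le_sum fun w _ => Finset.sum_le_sum fun w' _ => ?_
  by_cases h : KK w = KK w'
  · have : ∃ z : ℤ, SS r w - SS r w' = z := ⟨0, by rw [SS_eq, SS_eq, h]; simp⟩
    rw [if_pos h, if_pos this]
  · rw [if_neg h]
    split_ifs <;> norm_num

end main

/-- P3K: the density lemma (limit form of Kronecker's theorem). -/
theorem P3K {n : ℕ} {ι : Type*} (U : Ultrafilter ι) (r : ι → Fin n → ℝ) (x : Fin n → ℝ)
    (hx : ∀ k : Fin n → ℤ, (∀ᶠ m in U, ∃ z : ℤ, ∑ i, (k i : ℝ) * r m i = z) →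
      ∃ z : ℤ, ∑ i, (k i : ℝ) * x i = z) {δ : ℝ} (hδ : 0 < δ) :
    ∀ᶠ m in U, ∃ j : ℤ, ∀ i, ∃ z : ℤ, |x i - j * r m i - z| < δ := by
  by_cases hδ2 : 1 / 2 < δ
  · refine Eventually.of_forall fun m => ⟨0, fun i => ⟨round (x i), ?_⟩⟩
    have := abs_sub_round (x i)
    simp only [Int.cast_zero, zero_mul, sub_zero]
    linarith
  push Not at hδ2
  rcases Nat.eq_zero_or_pos n with hn | hn
  · subst hn
    exact Eventually.of_forall fun m => ⟨0, fun i => i.elim0⟩
  -- choice of L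
  set p : ℝ := Real.sqrt (2 + 2 * Real.cos (2 * Real.pi * δ)) + (n - 1) with hp
  have hp0 : 0 ≤ p := by
    have : (1 : ℝ) ≤ n := by exact_mod_cast hn
    have h1 := Real.sqrt_nonneg (2 + 2 * Real.cos (2 * Real.pi * δ))
    linarith
  have hp1 : p < n + 1 := by
    have h1 : Real.cos (2 * Real.pi * δ) < 1 := by
      have hpi := Real.pi_pos
      have := Real.cos_lt_cos_of_nonneg_of_le_pi (x := 0) (y := 2 * Real.pi * δ) le_rfl
        (by nlinarith) (by positivity)
      simpa using this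
    have h2 : Real.sqrt (2 + 2 * Real.cos (2 * Real.pi * δ)) < 2 := by
      rw [Real.sqrt_lt' (by norm_num)]
      linarith
    linarith
  set q : ℝ := (p / (n + 1)) ^ 2 with hq
  have hn1 : (0 : ℝ) < (n : ℝ) + 1 := by positivity
  have hq0 : 0 ≤ q := by positivity
  have hq1 : q < 1 := by
    rw [hq]
    have h1 : p / (n + 1) < 1 := (div_lt_one hn1).2 hp1
    have h2 : 0 ≤ p / (n + 1) := by positivity
    nlinarith
  obtain ⟨L, hL⟩ : ∃ L : ℕ, ((L : ℝ) + 1) ^ n * q ^ L < 1 := by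
    have h1 := tendsto_pow_const_mul_const_pow_of_abs_lt_one n (r := (q + 1) / 2)
      (by rw [abs_of_nonneg (by positivity)]; linarith)
    have h2 := h1.comp (tendsto_add_atTop_nat 1)
    have h3 : ∀ᶠ L : ℕ in atTop, (((L + 1 : ℕ) : ℝ)) ^ n * ((q + 1) / 2) ^ (L + 1) <
        1 / 2 := by
      have := h2.eventually (gt_mem_nhds (show (0 : ℝ) < 1 / 2 by norm_num))
      exact this
    obtain ⟨L, hL⟩ := h3.exists
    refine ⟨L, ?_⟩
    push_cast at hL
    have h4 : q ^ L ≤ ((q + 1) / 2) ^ L := by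
      gcongr
      linarith
    have h5 : (1 / 2 : ℝ) * ((q + 1) / 2) ^ L ≤ ((q + 1) / 2) ^ (L + 1) := by
      rw [pow_succ, mul_comm]
      gcongr
      linarith
    have h6 : (0 : ℝ) ≤ ((L : ℝ) + 1) ^ n := by positivity
    have h7 : ((L : ℝ) + 1) ^ n * ((1 / 2 : ℝ) * ((q + 1) / 2) ^ L) < 1 / 2 :=
      lt_of_le_of_lt (mul_le_mul_of_nonneg_left h5 h6) hL
    calc ((L : ℝ) + 1) ^ n * q ^ L ≤ ((L : ℝ) + 1) ^ n * ((q + 1) / 2) ^ L :=
          mul_le_mul_of_nonneg_left h4 h6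
      _ < 1 := by linarith
  have hev : ∀ᶠ m in U, ∀ ww : (Fin L → Option (Fin n)) × (Fin L → Option (Fin n)),
      (∃ z : ℤ, SS (r m) ww.1 - SS (r m) ww.2 = z) → ∃ z : ℤ, SS x ww.1 - SS x ww.2 = z := by
    rw [Filter.eventually_all]
    rintro ⟨w, w'⟩
    have e1 : ∀ y : Fin n → ℝ, SS y w - SS y w' = ∑ i, ((KK w - KK w') i : ℝ) * y i := by
      intro y
      rw [SS_eq, SS_eq, ← Finset.sum_sub_distrib]
      refine Finset.sum_congr rfl fun i _ => ?_
      rw [Pi.sub_apply]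
      push_cast
      ring
    by_cases h : ∀ᶠ m in U, ∃ z : ℤ, ∑ i, ((KK w - KK w') i : ℝ) * r m i = z
    · refine Eventually.of_forall fun m _ => ?_
      rw [e1]
      have h' : ∀ᶠ m in U, ∃ z : ℤ, ∑ i, (((KK w - KK w') i : ℤ) : ℝ) * r m i = z := h
      exact hx _ h'
    · have h' := Ultrafilter.eventually_not.2 h
      filter_upwards [h'] with m hm
      intro h1
      exfalso
      apply hm
      rwa [e1] at h1
  filter_upwards [hev] with m hm
  by_contra hcon
  push Not at hcon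
  have key := single (r := r m) (x := x) hδ L (fun w w' => hm (w, w')) hcon
  rw [← hp] at key
  have h8 : (p ^ L) ^ 2 = (((n : ℝ) + 1) ^ L) ^ 2 * q ^ L := by
    rw [hq, ← pow_mul, ← pow_mul, ← pow_mul, mul_comm 2 L, ← mul_pow]
    congr 1
    field_simp
  rw [h8] at key
  have h9 : 0 < (((n : ℝ) + 1) ^ L) ^ 2 := by positivity
  nlinarith

end Pool.Agent.Helper90.FKF
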